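import Pool.Agent.Helper22.SL.Defs

/-!
# T5, block SL: S3 (count of the data of one level with a given new target)
-/

namespace Pool.Agent.Helper2.SL

open Finset Pool.Agent.Helper27.T4 Pool.Agent.Helper29.T4 Pool.Agent.Helper22.HW
  Pool.Agent.Helper22.SL Pool.Agent.Helper3.T4

variable {κ : Type*} [DecidableEq κ] {Mk : κ → ℕ} {P : Pr κ}

/-- number of admissible values of one family -/
theorem card_sq_lt (q : ℕ) (S : Finset ℕ) (h : ∀ y ∈ S, 1 ≤ y ∧ y ^ 2 < q) :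
    S.card ≤ Nat.sqrt q := by
  have h1 : S ⊆ Icc 1 (Nat.sqrt q) := by
    intro y hy
    obtain ⟨h2, h3⟩ := h y hy
    rw [mem_Icc]
    exact ⟨h2, Nat.le_sqrt'.2 h3.le⟩
  refine (card_le_card h1).trans ?_
  rw [Nat.card_Icc]
  omega

omit [DecidableEq κ] in
theorem Q_eq (P : Pr κ) (r : ℕ) : P.Q r = P.q r 0 * P.q r 1 * P.q r 2 := by
  rw [Pr.Q, NN, Fin.prod_univ_three]
  rfl

omit [DecidableEq κ] in
theorem L_succ (P : Pr κ) (r : ℕ) : P.L (r + 1) = P.L r * (P.q r 0 * P.q r 1 * P.q r 2) := by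
  rw [Pr.L, prod_range_succ, Q_eq, Pr.L]
  ring

omit [DecidableEq κ] in
/-- the two codes for given vectors -/
theorem card_codes (hP : P.Ok Mk) {r : ℕ} (hr : r < P.h) (w : κ → ℕ) (t t' : ℕ)
    (S : Finset Lv) (hS : ∀ ℓ ∈ S, Lok P w {0, 1} {0, 1} r t ℓ ∧ t - (ℓ.2.1 + ℓ.2.2) = t')
    (y : (Fin 3 → ℕ) × (Fin 3 → ℕ)) (hy : ∀ ℓ ∈ S, ℓ.1 = y) :
    S.card ≤ P.F' (r + 1) * P.L (r + 1) / (P.F (r + 1) * P.L r * (P.q r 0 * P.q r 1)) + 1 := by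
  classical
  have hq : ∀ i, 0 < P.q r i := fun i => pow_pos (hP.prime r i).pos _
  have hFpos : 0 < P.F (r + 1) * P.L r := (hP.sok r hr).pos
  have hFpos' : 0 < P.F' (r + 1) * P.L r := (hP.sok' r hr).pos
  set B := P.F (r + 1) * P.L r * (P.q r 0 * P.q r 1) with hB
  set B' := P.F' (r + 1) * P.L r * (P.q r 0 * P.q r 1) with hB'
  have hBpos : 0 < B := Nat.mul_pos hFpos (Nat.mul_pos (hq 0) (hq 1))
  have hBpos' : 0 < B' := Nat.mul_pos hFpos' (Nat.mul_pos (hq 0) (hq 1))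
  have hdvd : B' ∣ B :=
    Nat.mul_dvd_mul (Nat.mul_dvd_mul (hP.F'F (r + 1) hr) (dvd_refl _)) (dvd_refl _)
  have hlcm : Nat.lcm B B' = B :=
    Nat.dvd_antisymm (Nat.lcm_dvd (dvd_refl _) hdvd) (Nat.dvd_lcm_left _ _)
  have hinj : Set.InjOn (fun ℓ : Lv => ℓ.2) (S : Set Lv) := by
    intro a ha b hb hab
    exact Prod.ext ((hy a ha).trans (hy b hb).symm) hab
  rw [← Finset.card_image_of_injOn hinj]
  have h01 : (P.q r 0).Coprime (P.q r 1) :=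
    Nat.Coprime.pow _ _ ((Nat.coprime_primes (hP.prime r 0) (hP.prime r 1)).2
      (fun h => by simpa using hP.inj r h))
  have hcl : ∀ (A0 : ℕ) (c c0 : ℕ), (∀ i, A0.Coprime (P.p r i)) → A0 ∣ c → A0 ∣ c0 →
      (c : ZMod (P.q r 0)) = c0 → (c : ZMod (P.q r 1)) = c0 →
      c ≡ c0 [MOD A0 * (P.q r 0 * P.q r 1)] := by
    intro A0 c c0 hco hc hc0 e0 e1
    have hco' : A0.Coprime (P.q r 0 * P.q r 1) :=
      Nat.Coprime.mul_right (Nat.Coprime.pow_right _ (hco 0)) (Nat.Coprime.pow_right _ (hco 1))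
    refine (Nat.modEq_and_modEq_iff_modEq_mul hco').1 ⟨?_, ?_⟩
    · exact ((Nat.modEq_zero_iff_dvd).2 hc).trans ((Nat.modEq_zero_iff_dvd).2 hc0).symm
    · exact (Nat.modEq_and_modEq_iff_modEq_mul h01).1
        ⟨(ZMod.natCast_eq_natCast_iff _ _ _).1 e0, (ZMod.natCast_eq_natCast_iff _ _ _).1 e1⟩
  have key := pair_sum_card (A := P.F (r + 1) * P.L (r + 1)) (A' := P.F' (r + 1) * P.L (r + 1))
    (B := B) (B' := B') (T := t - t') hBpos hBpos' (S.image (fun ℓ : Lv => ℓ.2)) ?_ ?_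
  · refine key.trans ?_
    rw [hlcm]
    exact Nat.add_le_add_right (Nat.div_le_div_right (min_le_right _ _)) 1
  · intro x hx
    rw [mem_image] at hx
    obtain ⟨ℓ, hℓ, rfl⟩ := hx
    obtain ⟨h1, h2⟩ := hS ℓ hℓ
    refine ⟨h1.lt, h1.lt', ?_⟩
    have := h1.le
    omega
  · intro x hx x' hx'
    rw [mem_image] at hx hx'
    obtain ⟨ℓ, hℓ, rfl⟩ := hx
    obtain ⟨ℓ', hℓ', rfl⟩ := hx'
    obtain ⟨h1, -⟩ := hS ℓ hℓ
    obtain ⟨h1', -⟩ := hS ℓ' hℓ'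
    have e := (hy ℓ hℓ).trans (hy ℓ' hℓ').symm
    have e1 : ℓ.1.1 = ℓ'.1.1 := congrArg Prod.fst e
    have e2 : ℓ.1.2 = ℓ'.1.2 := congrArg Prod.snd e
    have m0 : (0 : Fin 3) ∈ ({0, 1} : Finset (Fin 3)) := by simp
    have m1 : (1 : Fin 3) ∈ ({0, 1} : Finset (Fin 3)) := by simp
    constructor
    · refine hcl _ _ _ (hP.sok r hr).cop h1.dvd h1'.dvd ?_ ?_
      · exact (h1.cmp 0 m0).trans ((h1'.cmp 0 m0).trans (by rw [e1])).symm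
      · exact (h1.cmp 1 m1).trans ((h1'.cmp 1 m1).trans (by rw [e1])).symm
    · refine hcl _ _ _ (hP.sok' r hr).cop h1.dvd' h1'.dvd' ?_ ?_
      · exact (h1.cmp' 0 m0).trans ((h1'.cmp' 0 m0).trans (by rw [e2])).symm
      · exact (h1.cmp' 1 m1).trans ((h1'.cmp' 1 m1).trans (by rw [e2])).symm

omit [DecidableEq κ] in
/-- the sum of the components of one family -/
theorem comp_sum {r : ℕ} {w : κ → ℕ} {N N' : Finset (Fin 3)} {t : ℕ} {ℓ : Lv}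
    (h : Lok P w N N' r t ℓ) {t' : ℕ} (ht' : t - (ℓ.2.1 + ℓ.2.2) = t') {i : Fin 3} (hi : i ∈ N)
    (hi' : i ∈ N') : Lg (P.p r i) (P.z r i) (ℓ.1.1 i) + Lg (P.p r i) (P.z r i) (ℓ.1.2 i) =
      ((t - t' : ℕ) : ZMod (P.p r i ^ P.z r i)) -
        ((w (P.key r i ℓ.1.1) : ℕ) : ZMod (P.p r i ^ P.z r i)) -
        ((w (P.key' r i ℓ.1.2) : ℕ) : ZMod (P.p r i ^ P.z r i)) := by
  have h1 : ℓ.2.1 + ℓ.2.2 = t - t' := by
    have := h.le
    omega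
  rw [← h1, Nat.cast_add, h.cmp i hi, h.cmp' i hi']
  ring

omit [DecidableEq κ] in
/-- the pairs of the families 0 and 1 -/
theorem card_pre (hP : P.Ok Mk) {r : ℕ} (hr : r < P.h) (w : κ → ℕ) (t t' : ℕ)
    (S : Finset Lv) (hS : ∀ ℓ ∈ S, Lok P w {0, 1} {0, 1} r t ℓ ∧ t - (ℓ.2.1 + ℓ.2.2) = t') :
    (S.image (fun ℓ : Lv => ((ℓ.1.1 0, ℓ.1.2 0), (ℓ.1.1 1, ℓ.1.2 1)))).card ≤
      (2 * (P.p r 1 - 1)) * (2 * (P.p r 0 - 1)) := by
  classical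
  have m0 : (0 : Fin 3) ∈ ({0, 1} : Finset (Fin 3)) := by simp
  have m1 : (1 : Fin 3) ∈ ({0, 1} : Finset (Fin 3)) := by simp
  set G := S.image (fun ℓ : Lv => ((ℓ.1.1 0, ℓ.1.2 0), (ℓ.1.1 1, ℓ.1.2 1))) with hG
  have h1 : G.card ≤ (2 * (P.p r 1 - 1)) * (G.image Prod.fst).card := by
    refine Finset.card_le_mul_card_image G _ (fun u hu => ?_)
    rw [← Finset.card_image_of_injOn (f := Prod.snd)]
    swap
    · intro a ha b hb hab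
      rw [coe_filter] at ha hb
      exact Prod.ext (ha.2.trans hb.2.symm) hab
    by_cases hne : ((G.filter (fun x => x.1 = u)).image Prod.snd).Nonempty
    swap
    · rw [not_nonempty_iff_eq_empty] at hne
      rw [hne, card_empty]
      exact Nat.zero_le _
    obtain ⟨v0, hv0⟩ := hne
    rw [mem_image] at hv0
    obtain ⟨x0, hx0, -⟩ := hv0
    rw [mem_filter, hG, mem_image] at hx0
    obtain ⟨⟨ℓ0, hℓ0, rfl⟩, hu0⟩ := hx0
    refine (hP.adm r).pairs 1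
      (((t - t' : ℕ) : ZMod (P.p r 1 ^ P.z r 1)) -
        ((w (P.key r 1 ℓ0.1.1) : ℕ) : ZMod (P.p r 1 ^ P.z r 1)) -
        ((w (P.key' r 1 ℓ0.1.2) : ℕ) : ZMod (P.p r 1 ^ P.z r 1))) _ (fun v hv => ?_)
    rw [mem_image] at hv
    obtain ⟨x, hx, rfl⟩ := hv
    rw [mem_filter, hG, mem_image] at hx
    obtain ⟨⟨ℓ, hℓ, rfl⟩, hu⟩ := hx
    obtain ⟨hl, ht'⟩ := hS ℓ hℓ
    refine ⟨⟨_, hl.y, rfl⟩, ⟨_, hl.y', rfl⟩, ?_⟩
    have huu : (ℓ.1.1 0, ℓ.1.2 0) = (ℓ0.1.1 0, ℓ0.1.2 0) := hu.trans hu0.symm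
    have e1 : P.key r 1 ℓ.1.1 = P.key r 1 ℓ0.1.1 := (hP.sok r hr).dep 1 _ _ (fun j hj => by
      have : j = 0 := by
        fin_cases j <;> simp_all [rk3]
      subst this
      exact congrArg Prod.fst huu)
    have e2 : P.key' r 1 ℓ.1.2 = P.key' r 1 ℓ0.1.2 := (hP.sok' r hr).dep 1 _ _ (fun j hj => by
      have : j = 0 := by
        fin_cases j <;> simp_all [rk3]
      subst this
      exact congrArg Prod.snd huu)
    rw [← e1, ← e2]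
    exact comp_sum hl ht' m1 m1
  refine h1.trans (Nat.mul_le_mul_left _ ?_)
  by_cases hne : (G.image Prod.fst).Nonempty
  swap
  · rw [not_nonempty_iff_eq_empty] at hne
    rw [hne, card_empty]
    exact Nat.zero_le _
  obtain ⟨v0, hv0⟩ := hne
  rw [mem_image] at hv0
  obtain ⟨x0, hx0, -⟩ := hv0
  rw [hG, mem_image] at hx0
  obtain ⟨ℓ0, hℓ0, rfl⟩ := hx0
  refine (hP.adm r).pairs 0
    (((t - t' : ℕ) : ZMod (P.p r 0 ^ P.z r 0)) -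
      ((w (P.key r 0 ℓ0.1.1) : ℕ) : ZMod (P.p r 0 ^ P.z r 0)) -
      ((w (P.key' r 0 ℓ0.1.2) : ℕ) : ZMod (P.p r 0 ^ P.z r 0))) _ (fun v hv => ?_)
  rw [mem_image] at hv
  obtain ⟨x, hx, rfl⟩ := hv
  rw [hG, mem_image] at hx
  obtain ⟨ℓ, hℓ, rfl⟩ := hx
  obtain ⟨hl, ht'⟩ := hS ℓ hℓ
  refine ⟨⟨_, hl.y, rfl⟩, ⟨_, hl.y', rfl⟩, ?_⟩
  have e1 : P.key r 0 ℓ.1.1 = P.key r 0 ℓ0.1.1 := (hP.sok r hr).dep 0 _ _ (fun j hj => by
    exact absurd hj (Nat.not_lt_zero _))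
  have e2 : P.key' r 0 ℓ.1.2 = P.key' r 0 ℓ0.1.2 := (hP.sok' r hr).dep 0 _ _ (fun j hj => by
    exact absurd hj (Nat.not_lt_zero _))
  rw [← e1, ← e2]
  exact comp_sum hl ht' m0 m0

open Classical in
/-- S3 -/
theorem lv_count (hP : P.Ok Mk) {r : ℕ} (hr : r < P.h) (w : κ → ℕ) (t t' : ℕ) :
    (((box P r).filter (fun ℓ => Lok P w {0, 1} {0, 1} r t ℓ ∧
      t - (ℓ.2.1 + ℓ.2.2) = t')).card : ℝ) ≤
      20 * P.p r 0 * P.p r 1 * ((P.q r 2 : ℕ) : ℝ) ^ 2 * P.pc (r + 1) := by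
  set S := (box P r).filter (fun ℓ => Lok P w {0, 1} {0, 1} r t ℓ ∧
      t - (ℓ.2.1 + ℓ.2.2) = t') with hSdef
  have hS : ∀ ℓ ∈ S, Lok P w {0, 1} {0, 1} r t ℓ ∧ t - (ℓ.2.1 + ℓ.2.2) = t' := by
    intro ℓ hℓ
    rw [hSdef, mem_filter] at hℓ
    exact hℓ.2
  set n1 := P.F' (r + 1) * P.L (r + 1) / (P.F (r + 1) * P.L r * (P.q r 0 * P.q r 1)) + 1 with hn1
  have s1 : S.card ≤ n1 * (S.image (fun ℓ : Lv => ℓ.1)).card := by
    refine Finset.card_le_mul_card_image S _ (fun y _ => ?_)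
    refine card_codes hP hr w t t' _ (fun ℓ hℓ => hS ℓ (mem_filter.1 hℓ).1) y
      (fun ℓ hℓ => (mem_filter.1 hℓ).2)
  have s2 : (S.image (fun ℓ : Lv => ℓ.1)).card ≤
      (S.image (fun ℓ : Lv => ((ℓ.1.1 0, ℓ.1.2 0), (ℓ.1.1 1, ℓ.1.2 1)))).card *
        ((S.image (fun ℓ : Lv => ℓ.1.1 2)).card * (S.image (fun ℓ : Lv => ℓ.1.2 2)).card) := by
    rw [← card_product, ← card_product]
    refine Finset.card_le_card_of_injOn
      (fun y => (((y.1 0, y.2 0), (y.1 1, y.2 1)), (y.1 2, y.2 2))) ?_ ?_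
    · intro y hy
      rw [coe_image] at hy
      obtain ⟨ℓ, hℓ, rfl⟩ := hy
      rw [mem_coe, mem_product, mem_product]
      exact ⟨mem_image_of_mem (fun ℓ : Lv => ((ℓ.1.1 0, ℓ.1.2 0), (ℓ.1.1 1, ℓ.1.2 1))) hℓ,
        mem_image_of_mem (fun ℓ : Lv => ℓ.1.1 2) hℓ,
        mem_image_of_mem (fun ℓ : Lv => ℓ.1.2 2) hℓ⟩
    · intro y _ y' _ h
      simp only [Prod.mk.injEq] at h
      obtain ⟨⟨⟨a1, a2⟩, a3, a4⟩, a5, a6⟩ := h
      refine Prod.ext ?_ ?_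
      · funext i
        fin_cases i
        · exact a1
        · exact a3
        · exact a5
      · funext i
        fin_cases i
        · exact a2
        · exact a4
        · exact a6
  have s3 := card_pre hP hr w t t' S hS
  have s4 : (S.image (fun ℓ : Lv => ℓ.1.1 2)).card ≤ Nat.sqrt (P.q r 2) := by
    refine (hP.adm r).card 2 _ (fun y hy => ?_)
    rw [mem_image] at hy
    obtain ⟨ℓ, hℓ, rfl⟩ := hy
    exact ⟨_, (hS ℓ hℓ).1.y, rfl⟩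
  have s5 : (S.image (fun ℓ : Lv => ℓ.1.2 2)).card ≤ Nat.sqrt (P.q r 2) := by
    refine (hP.adm r).card 2 _ (fun y hy => ?_)
    rw [mem_image] at hy
    obtain ⟨ℓ, hℓ, rfl⟩ := hy
    exact ⟨_, (hS ℓ hℓ).1.y', rfl⟩
  have s6 : S.card ≤ n1 * (((2 * (P.p r 1 - 1)) * (2 * (P.p r 0 - 1))) * P.q r 2) := by
    refine s1.trans (Nat.mul_le_mul_left _ (s2.trans (Nat.mul_le_mul s3 ?_)))
    exact (Nat.mul_le_mul s4 s5).trans (Nat.sqrt_le _)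
  -- real numbers
  have hq : ∀ i, (0 : ℝ) < (P.q r i : ℝ) := fun i => by
    exact_mod_cast pow_pos (hP.prime r i).pos _
  have hF : (0 : ℝ) < P.F (r + 1) := by
    have := (hP.sok r hr).pos
    exact_mod_cast Nat.pos_of_mul_pos_right this
  have hL : (0 : ℝ) < P.L r := by
    have := (hP.sok r hr).pos
    exact_mod_cast Nat.pos_of_mul_pos_left this
  have hn1r : (n1 : ℝ) ≤ P.q r 2 * P.pc (r + 1) := by
    rw [hn1]
    push_cast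
    have h1 : ((P.F' (r + 1) * P.L (r + 1) / (P.F (r + 1) * P.L r * (P.q r 0 * P.q r 1)) : ℕ) : ℝ)
        ≤ ((P.F' (r + 1) * P.L (r + 1) : ℕ) : ℝ) /
          ((P.F (r + 1) * P.L r * (P.q r 0 * P.q r 1) : ℕ) : ℝ) := Nat.cast_div_le
    refine (add_le_add_left h1 1).trans (le_of_eq ?_)
    rw [L_succ, Pr.pc]
    push_cast
    have h0 := (hq 0).ne'
    have h1' := (hq 1).ne'
    have h2' := (hq 2).ne'
    field_simp
  have hpc : 0 ≤ P.pc (r + 1) := by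
    rw [Pr.pc]
    positivity
  have hp1 : ((P.p r 1 - 1 : ℕ) : ℝ) ≤ P.p r 1 := by
    exact_mod_cast Nat.sub_le _ _
  have hp0 : ((P.p r 0 - 1 : ℕ) : ℝ) ≤ P.p r 0 := by
    exact_mod_cast Nat.sub_le _ _
  have s7 : (S.card : ℝ) ≤ n1 * (((2 * ((P.p r 1 - 1 : ℕ) : ℝ)) * (2 * ((P.p r 0 - 1 : ℕ) : ℝ))) *
      P.q r 2) := by exact_mod_cast s6
  refine s7.trans ?_
  have h0 : (0 : ℝ) ≤ P.p r 0 := Nat.cast_nonneg _
  have h1 : (0 : ℝ) ≤ P.p r 1 := Nat.cast_nonneg _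
  calc (n1 : ℝ) * (((2 * ((P.p r 1 - 1 : ℕ) : ℝ)) * (2 * ((P.p r 0 - 1 : ℕ) : ℝ))) * P.q r 2)
      ≤ (P.q r 2 * P.pc (r + 1)) * (((2 * (P.p r 1 : ℝ)) * (2 * (P.p r 0 : ℝ))) * P.q r 2) := by
        gcongr
    _ = 4 * (P.p r 0 * P.p r 1 * ((P.q r 2 : ℕ) : ℝ) ^ 2 * P.pc (r + 1)) := by ring
    _ ≤ 20 * (P.p r 0 * P.p r 1 * ((P.q r 2 : ℕ) : ℝ) ^ 2 * P.pc (r + 1)) := by
        have : 0 ≤ (P.p r 0 * P.p r 1 * ((P.q r 2 : ℕ) : ℝ) ^ 2 * P.pc (r + 1) : ℝ) := by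
          positivity
        linarith
    _ = _ := by ring

end Pool.Agent.Helper2.SL
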