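import Pool.Agent.Helper2.SL.Count

/-!
# T5, block SL: S6a, S6b (degrees: constant initial part on one side)
-/

namespace Pool.Agent.Helper2.SL

open Finset Pool.Agent.Helper27.T4 Pool.Agent.Helper29.T4 Pool.Agent.Helper22.HW
  Pool.Agent.Helper22.SL Pool.Agent.Helper3.T4

/-- one side has all components given and constant families 0, 1; the other side has the
components 0 and 2 given -/
theorem lvA_gen {p z : Fin 3 → ℕ} (hp : ∀ i, (p i).Prime) (hodd : ∀ i, p i ≠ 2)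
    (hinj : Function.Injective p) {Y : Finset (Fin 3 → ℕ)}
    (hY : Pool.Agent.Helper73.T5.SAdm p z Y) {A0 A0' : ℕ}
    (hA : ∀ i, A0.Coprime (p i)) (hA' : ∀ i, A0'.Coprime (p i))
    (ρ ρ' : ∀ i, (Fin 3 → ℕ) → ZMod (p i ^ z i))
    (hρ : ∀ i x y, (∀ j, rk3 j < rk3 i → x j = y j) → ρ i x = ρ i y)
    (hρ' : ∀ i x y, (∀ j, rk3 j < rk3 i → x j = y j) → ρ' i x = ρ' i y)
    (t a b : ℕ) (S : Finset Lv)
    (h1 : ∀ ℓ ∈ S, ℓ.1.1 ∈ Y ∧ ℓ.1.2 ∈ Y)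
    (h2 : ∀ ℓ ∈ S, ℓ.2.1 < A0 * NN p z ∧ ℓ.2.2 < A0' * NN p z ∧ A0 ∣ ℓ.2.1 ∧ A0' ∣ ℓ.2.2)
    (h3 : ∀ ℓ ∈ S, ∀ i, ((ℓ.2.1 : ℕ) : ZMod (p i ^ z i)) = Lg (p i) (z i) (ℓ.1.1 i) + ρ i ℓ.1.1)
    (h4 : ∀ ℓ ∈ S, ∀ i ∈ ({0, 2} : Finset (Fin 3)),
      ((ℓ.2.2 : ℕ) : ZMod (p i ^ z i)) = Lg (p i) (z i) (ℓ.1.2 i) + ρ' i ℓ.1.2)
    (h5 : ∀ ℓ ∈ S, ∀ i, ((ℓ.2.1 + ℓ.2.2 : ℕ) : ZMod (p i ^ z i)) = (t : ZMod (p i ^ z i)))
    (h6 : ∀ ℓ ∈ S, ℓ.1.1 0 = a ∧ ℓ.1.1 1 = b) :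
    S.card ≤ (2 * (p 2 - 1)) * ((p 0 - 1) * Nat.sqrt (p 1 ^ z 1)) := by
  classical
  have m0 : (0 : Fin 3) ∈ ({0, 2} : Finset (Fin 3)) := by simp
  have m2 : (2 : Fin 3) ∈ ({0, 2} : Finset (Fin 3)) := by simp
  -- the data are determined by the families of the other side and the family 2
  set g : Lv → (ℕ × ℕ) × (ℕ × ℕ) := fun ℓ => ((ℓ.1.2 0, ℓ.1.2 1), (ℓ.1.1 2, ℓ.1.2 2)) with hg
  have hginj : Set.InjOn g (S : Set Lv) := by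
    intro ℓ hℓ ℓ' hℓ' hh
    rw [hg] at hh
    simp only [Prod.mk.injEq] at hh
    obtain ⟨⟨e0, e1⟩, e2, e3⟩ := hh
    obtain ⟨a0, a1⟩ := h6 ℓ hℓ
    obtain ⟨b0, b1⟩ := h6 ℓ' hℓ'
    have ey : ℓ.1.1 = ℓ'.1.1 := by
      funext i
      fin_cases i
      · exact a0.trans b0.symm
      · exact a1.trans b1.symm
      · exact e2
    have ey' : ℓ.1.2 = ℓ'.1.2 := by
      funext i
      fin_cases i
      · exact e0
      · exact e1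
      · exact e3
    obtain ⟨c1, c2, c3, c4⟩ := h2 ℓ hℓ
    obtain ⟨d1, d2, d3, d4⟩ := h2 ℓ' hℓ'
    have ec : ℓ.2.1 = ℓ'.2.1 := by
      refine eq_of_casts hp hinj hA z c1 d1 c3 d3 (fun i => ?_)
      rw [h3 ℓ hℓ i, h3 ℓ' hℓ' i, ey]
    have ec' : ℓ.2.2 = ℓ'.2.2 := by
      refine eq_of_casts hp hinj hA' z c2 d2 c4 d4 (fun i => ?_)
      have f1 := h5 ℓ hℓ i
      have f2 := h5 ℓ' hℓ' i
      rw [← f2, Nat.cast_add, Nat.cast_add, ec] at f1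
      exact add_left_cancel f1
    exact Prod.ext (Prod.ext ey ey') (Prod.ext ec ec')
  rw [← Finset.card_image_of_injOn hginj]
  set G := S.image g with hG
  have s1 : G.card ≤ (2 * (p 2 - 1)) * (G.image Prod.fst).card := by
    refine Finset.card_le_mul_card_image G _ (fun u hu => ?_)
    rw [← Finset.card_image_of_injOn (f := Prod.snd)]
    swap
    · intro x hx y hy hxy
      rw [coe_filter] at hx hy
      exact Prod.ext (hx.2.trans hy.2.symm) hxy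
    by_cases hne : ((G.filter (fun x => x.1 = u)).image Prod.snd).Nonempty
    swap
    · rw [not_nonempty_iff_eq_empty] at hne
      rw [hne, card_empty]
      exact Nat.zero_le _
    obtain ⟨v0, hv0⟩ := hne
    rw [mem_image] at hv0
    obtain ⟨x0, hx0, -⟩ := hv0
    rw [mem_filter, hG, mem_image] at hx0
    obtain ⟨⟨ℓ0, hℓ0, rfl⟩, hu0⟩ := hx0
    refine hY.pairs 2
      ((t : ZMod (p 2 ^ z 2)) - ρ 2 ℓ0.1.1 - ρ' 2 ℓ0.1.2) _ (fun v hv => ?_)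
    rw [mem_image] at hv
    obtain ⟨x, hx, rfl⟩ := hv
    rw [mem_filter, hG, mem_image] at hx
    obtain ⟨⟨ℓ, hℓ, rfl⟩, hu⟩ := hx
    refine ⟨⟨_, (h1 ℓ hℓ).1, rfl⟩, ⟨_, (h1 ℓ hℓ).2, rfl⟩, ?_⟩
    have huu : (ℓ.1.2 0, ℓ.1.2 1) = (ℓ0.1.2 0, ℓ0.1.2 1) := hu.trans hu0.symm
    have e1 : ρ 2 ℓ.1.1 = ρ 2 ℓ0.1.1 := hρ 2 _ _ (fun j hj => by
      fin_cases j
      · exact (h6 ℓ hℓ).1.trans (h6 ℓ0 hℓ0).1.symm
      · exact (h6 ℓ hℓ).2.trans (h6 ℓ0 hℓ0).2.symm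
      · exact absurd hj (lt_irrefl _))
    have e2 : ρ' 2 ℓ.1.2 = ρ' 2 ℓ0.1.2 := hρ' 2 _ _ (fun j hj => by
      fin_cases j
      · exact congrArg Prod.fst huu
      · exact congrArg Prod.snd huu
      · exact absurd hj (lt_irrefl _))
    rw [← e1, ← e2, ← h5 ℓ hℓ 2, Nat.cast_add, h3 ℓ hℓ 2, h4 ℓ hℓ 2 m2]
    change Lg (p 2) (z 2) (ℓ.1.1 2) + Lg (p 2) (z 2) (ℓ.1.2 2) = _
    ring
  have s2 : (G.image Prod.fst).card ≤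
      (S.image (fun ℓ : Lv => ℓ.1.2 0)).card * (S.image (fun ℓ : Lv => ℓ.1.2 1)).card := by
    rw [← card_product]
    refine card_le_card ?_
    intro x hx
    rw [mem_image] at hx
    obtain ⟨y, hy, rfl⟩ := hx
    rw [hG, mem_image] at hy
    obtain ⟨ℓ, hℓ, rfl⟩ := hy
    exact mem_product.2 ⟨mem_image_of_mem (fun ℓ : Lv => ℓ.1.2 0) hℓ,
      mem_image_of_mem (fun ℓ : Lv => ℓ.1.2 1) hℓ⟩
  have s3 : (S.image (fun ℓ : Lv => ℓ.1.2 1)).card ≤ Nat.sqrt (p 1 ^ z 1) := by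
    refine hY.card 1 _ (fun y hy => ?_)
    rw [mem_image] at hy
    obtain ⟨ℓ, hℓ, rfl⟩ := hy
    exact ⟨_, (h1 ℓ hℓ).2, rfl⟩
  have s4 : (S.image (fun ℓ : Lv => ℓ.1.2 0)).card ≤ p 0 - 1 := by
    by_cases hne : S.Nonempty
    swap
    · rw [not_nonempty_iff_eq_empty] at hne
      rw [hne, image_empty, card_empty]
      exact Nat.zero_le _
    obtain ⟨ℓ0, hℓ0⟩ := hne
    have h := hY.single 0
      ((t : ZMod (p 0 ^ z 0)) - Lg (p 0) (z 0) a - ρ 0 ℓ0.1.1 - ρ' 0 ℓ0.1.2)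
      (S.image (fun ℓ : Lv => ℓ.1.2 0)) (fun x hx => ?_)
    · exact h
    · rw [mem_image] at hx
      obtain ⟨ℓ, hℓ, rfl⟩ := hx
      refine ⟨⟨_, (h1 ℓ hℓ).2, rfl⟩, ?_⟩
      have e1 : ρ 0 ℓ.1.1 = ρ 0 ℓ0.1.1 := hρ 0 _ _ (fun j hj => absurd hj (Nat.not_lt_zero _))
      have e2 : ρ' 0 ℓ.1.2 = ρ' 0 ℓ0.1.2 := hρ' 0 _ _ (fun j hj => absurd hj (Nat.not_lt_zero _))
      rw [← e1, ← e2, ← h5 ℓ hℓ 0, Nat.cast_add, h3 ℓ hℓ 0, h4 ℓ hℓ 0 m0, (h6 ℓ hℓ).1]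
      ring
  exact s1.trans (Nat.mul_le_mul_left _ (s2.trans (Nat.mul_le_mul s4 s3)))

variable {κ : Type*} [DecidableEq κ] {Mk : κ → ℕ} {P : Pr κ}

omit [DecidableEq κ] in
theorem nat_to_real (P : Pr κ) (r n : ℕ)
    (h : n ≤ (2 * (P.p r 2 - 1)) * ((P.p r 0 - 1) * Nat.sqrt (P.q r 1))) :
    (n : ℝ) ≤ 8 * P.p r 0 * P.p r 2 * Real.sqrt (P.q r 1) := by
  have h1 : (n : ℝ) ≤ (2 * (P.p r 2 : ℝ)) * ((P.p r 0 : ℝ) * (Nat.sqrt (P.q r 1) : ℝ)) := by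
    have h2 : n ≤ (2 * P.p r 2) * (P.p r 0 * Nat.sqrt (P.q r 1)) :=
      h.trans (Nat.mul_le_mul (Nat.mul_le_mul_left _ (Nat.sub_le _ _))
        (Nat.mul_le_mul_right _ (Nat.sub_le _ _)))
    exact_mod_cast h2
  have h3 : (Nat.sqrt (P.q r 1) : ℝ) ≤ Real.sqrt (P.q r 1) := Real.nat_sqrt_le_real_sqrt
  have h0 : (0 : ℝ) ≤ P.p r 0 := Nat.cast_nonneg _
  have h2 : (0 : ℝ) ≤ P.p r 2 := Nat.cast_nonneg _
  calc (n : ℝ) ≤ (2 * (P.p r 2 : ℝ)) * ((P.p r 0 : ℝ) * (Nat.sqrt (P.q r 1) : ℝ)) := h1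
    _ ≤ (2 * (P.p r 2 : ℝ)) * ((P.p r 0 : ℝ) * Real.sqrt (P.q r 1)) := by gcongr
    _ = 2 * (P.p r 0 * P.p r 2 * Real.sqrt (P.q r 1)) := by ring
    _ ≤ 8 * (P.p r 0 * P.p r 2 * Real.sqrt (P.q r 1)) := by
        have : 0 ≤ (P.p r 0 * P.p r 2 * Real.sqrt (P.q r 1) : ℝ) := by positivity
        linarith
    _ = _ := by ring

omit [DecidableEq κ] in
/-- the sum of the two codes modulo a family -/
theorem sum_cast {r t : ℕ} {w : κ → ℕ} {N N' : Finset (Fin 3)} {ℓ : Lv}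
    (h : Lok P w N N' r t ℓ) (i : Fin 3) :
    ((ℓ.2.1 + ℓ.2.2 : ℕ) : ZMod (P.p r i ^ P.z r i)) = (t : ZMod (P.p r i ^ P.z r i)) := by
  rw [ZMod.natCast_eq_natCast_iff]
  have h1 : P.q r i ∣ P.L (r + 1) := by
    rw [L_succ]
    refine Dvd.dvd.mul_left ?_ _
    fin_cases i
    · exact Dvd.dvd.mul_right (dvd_mul_right _ _) _
    · exact Dvd.dvd.mul_right (dvd_mul_left _ _) _
    · exact dvd_mul_left _ _
  have h2 : P.q r i ∣ t - (ℓ.2.1 + ℓ.2.2) := (h1.mul_left _).trans h.tdvd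
  exact (Nat.modEq_iff_dvd' h.le).2 h2

omit [DecidableEq κ] in
theorem Ok.rho_dep (hP : P.Ok Mk) {r : ℕ} (hr : r < P.h) (w : κ → ℕ) (i : Fin 3)
    (x y : Fin 3 → ℕ) (h : ∀ j, rk3 j < rk3 i → x j = y j) :
    ((w (P.key r i x) : ℕ) : ZMod (P.p r i ^ P.z r i)) =
      ((w (P.key r i y) : ℕ) : ZMod (P.p r i ^ P.z r i)) := by
  have := (hP.sok r hr).dep i x y h
  exact congrArg (fun k => ((w k : ℕ) : ZMod (P.p r i ^ P.z r i))) this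

omit [DecidableEq κ] in
theorem Ok.rho_dep' (hP : P.Ok Mk) {r : ℕ} (hr : r < P.h) (w : κ → ℕ) (i : Fin 3)
    (x y : Fin 3 → ℕ) (h : ∀ j, rk3 j < rk3 i → x j = y j) :
    ((w (P.key' r i x) : ℕ) : ZMod (P.p r i ^ P.z r i)) =
      ((w (P.key' r i y) : ℕ) : ZMod (P.p r i ^ P.z r i)) := by
  have := (hP.sok' r hr).dep i x y h
  exact congrArg (fun k => ((w k : ℕ) : ZMod (P.p r i ^ P.z r i))) this

omit [DecidableEq κ] in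
theorem range_eq (P : Pr κ) (r F : ℕ) : F * P.L (r + 1) = F * P.L r * NN (P.p r) (P.z r) := by
  rw [Pr.L, prod_range_succ, Pr.L, Pr.Q]
  ring

omit [DecidableEq κ] in
open Classical in
/-- S6a -/
theorem lvA_count (hP : P.Ok Mk) {r : ℕ} (hr : r < P.h) (w : κ → ℕ) (t a b : ℕ) :
    (((box P r).filter (fun ℓ => Lok P w univ {0, 2} r t ℓ ∧ ℓ.1.1 0 = a ∧ ℓ.1.1 1 = b)).card : ℝ)
      ≤ 8 * P.p r 0 * P.p r 2 * Real.sqrt (P.q r 1) := by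
  refine nat_to_real P r _ ?_
  refine lvA_gen (hP.prime r) (hP.odd r) (hP.inj r) (hP.adm r) (A0 := P.F (r + 1) * P.L r)
    (A0' := P.F' (r + 1) * P.L r) (hP.sok r hr).cop (hP.sok' r hr).cop
    (fun i x => ((w (P.key r i x) : ℕ) : ZMod (P.p r i ^ P.z r i)))
    (fun i x => ((w (P.key' r i x) : ℕ) : ZMod (P.p r i ^ P.z r i)))
    (fun i x y h => Ok.rho_dep hP hr w i x y h) (fun i x y h => Ok.rho_dep' hP hr w i x y h)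
    t a b _ ?_ ?_ ?_ ?_ ?_ ?_
  · intro ℓ hℓ
    rw [mem_filter] at hℓ
    exact ⟨hℓ.2.1.y, hℓ.2.1.y'⟩
  · intro ℓ hℓ
    rw [mem_filter] at hℓ
    obtain ⟨-, h, -⟩ := hℓ
    rw [← range_eq, ← range_eq]
    exact ⟨h.lt, h.lt', h.dvd, h.dvd'⟩
  · intro ℓ hℓ i
    rw [mem_filter] at hℓ
    exact hℓ.2.1.cmp i (mem_univ i)
  · intro ℓ hℓ i hi
    rw [mem_filter] at hℓ
    exact hℓ.2.1.cmp' i hi
  · intro ℓ hℓ i
    rw [mem_filter] at hℓ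
    exact sum_cast hℓ.2.1 i
  · intro ℓ hℓ
    rw [mem_filter] at hℓ
    exact hℓ.2.2

omit [DecidableEq κ] in
open Classical in
/-- S6b -/
theorem lvA'_count (hP : P.Ok Mk) {r : ℕ} (hr : r < P.h) (w : κ → ℕ) (t a b : ℕ) :
    (((box P r).filter (fun ℓ => Lok P w {0, 2} univ r t ℓ ∧ ℓ.1.2 0 = a ∧ ℓ.1.2 1 = b)).card : ℝ)
      ≤ 8 * P.p r 0 * P.p r 2 * Real.sqrt (P.q r 1) := by
  refine nat_to_real P r _ ?_
  set S := (box P r).filter (fun ℓ => Lok P w {0, 2} univ r t ℓ ∧ ℓ.1.2 0 = a ∧ ℓ.1.2 1 = b)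
    with hS
  have hsw : Function.Injective (fun ℓ : Lv => ((ℓ.1.2, ℓ.1.1), (ℓ.2.2, ℓ.2.1))) := by
    intro x y hxy
    simp only [Prod.mk.injEq] at hxy
    obtain ⟨⟨a1, a2⟩, a3, a4⟩ := hxy
    exact Prod.ext (Prod.ext a2 a1) (Prod.ext a4 a3)
  rw [← Finset.card_image_of_injective S hsw]
  refine lvA_gen (hP.prime r) (hP.odd r) (hP.inj r) (hP.adm r) (A0 := P.F' (r + 1) * P.L r)
    (A0' := P.F (r + 1) * P.L r) (hP.sok' r hr).cop (hP.sok r hr).cop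
    (fun i x => ((w (P.key' r i x) : ℕ) : ZMod (P.p r i ^ P.z r i)))
    (fun i x => ((w (P.key r i x) : ℕ) : ZMod (P.p r i ^ P.z r i)))
    (fun i x y h => Ok.rho_dep' hP hr w i x y h) (fun i x y h => Ok.rho_dep hP hr w i x y h)
    t a b _ ?_ ?_ ?_ ?_ ?_ ?_
  · intro ℓ hℓ
    rw [mem_image] at hℓ
    obtain ⟨m, hm, rfl⟩ := hℓ
    rw [hS, mem_filter] at hm
    exact ⟨hm.2.1.y', hm.2.1.y⟩
  · intro ℓ hℓ
    rw [mem_image] at hℓ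
    obtain ⟨m, hm, rfl⟩ := hℓ
    rw [hS, mem_filter] at hm
    obtain ⟨-, h, -⟩ := hm
    rw [← range_eq, ← range_eq]
    exact ⟨h.lt', h.lt, h.dvd', h.dvd⟩
  · intro ℓ hℓ i
    rw [mem_image] at hℓ
    obtain ⟨m, hm, rfl⟩ := hℓ
    rw [hS, mem_filter] at hm
    exact hm.2.1.cmp' i (mem_univ i)
  · intro ℓ hℓ i hi
    rw [mem_image] at hℓ
    obtain ⟨m, hm, rfl⟩ := hℓ
    rw [hS, mem_filter] at hm
    exact hm.2.1.cmp i hi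
  · intro ℓ hℓ i
    rw [mem_image] at hℓ
    obtain ⟨m, hm, rfl⟩ := hℓ
    rw [hS, mem_filter] at hm
    have h := sum_cast hm.2.1 i
    rw [Nat.add_comm] at h
    exact h
  · intro ℓ hℓ
    rw [mem_image] at hℓ
    obtain ⟨m, hm, rfl⟩ := hℓ
    rw [hS, mem_filter] at hm
    exact hm.2.2

end Pool.Agent.Helper2.SL
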